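import Pool.Agent.Helper12.VW.Defs
import Pool.Agent.Helper12.VW.Thr

/-!
VW-F4: small discriminants.
-/

set_option autoImplicit false

open Polynomial NumberField

namespace Pool.Agent.Helper12.VW

/-! ### Transfer along isomorphisms -/

private theorem coeff_toPoly {k : ℕ} (b : Fin (k + 1) → ℤ) :
    (toPoly b).coeff k = b (Fin.last k) := by
  unfold toPoly
  rw [Polynomial.finsetSum_coeff, Finset.sum_eq_single (Fin.last k)]
  · simp
  · intro i _ hi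
    rw [Polynomial.coeff_C_mul_X_pow, if_neg]
    intro h
    exact hi (Fin.ext (by simpa using h.symm))
  · intro h
    exact absurd (Finset.mem_univ _) h

private theorem natDegree_toPoly_le {k : ℕ} (b : Fin (k + 1) → ℤ) : (toPoly b).natDegree ≤ k := by
  unfold toPoly
  refine Polynomial.natDegree_sum_le_of_forall_le _ _ (fun i _ => ?_)
  refine (Polynomial.natDegree_C_mul_X_pow_le _ _).trans ?_
  have := i.isLt
  omega

private theorem natDegree_ratPoly {k : ℕ} (b : Fin (k + 1) → ℤ) (hb1 : b (Fin.last k) = 1) :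
    (ratPoly b).natDegree = k := by
  have h1 : (ratPoly b).natDegree ≤ k := by
    unfold ratPoly
    exact (Polynomial.natDegree_map_le).trans (natDegree_toPoly_le b)
  refine le_antisymm h1 (Polynomial.le_natDegree_of_ne_zero ?_)
  unfold ratPoly
  rw [Polynomial.coeff_map, coeff_toPoly, hb1]
  simp

private theorem adjoinRoot_equiv {k : ℕ} (b : Fin (k + 1) → ℤ) (hb : Irreducible (ratPoly b))
    (hb1 : b (Fin.last k) = 1) (L : Type) [Field L] [NumberField L]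
    (hL : Module.finrank ℚ L = k) (θ : L) (h : aeval θ (ratPoly b) = 0) :
    Nonempty (AdjoinRoot (ratPoly b) ≃ₐ[ℚ] L) := by
  have : Fact (Irreducible (ratPoly b)) := ⟨hb⟩
  let φ : AdjoinRoot (ratPoly b) →ₐ[ℚ] L :=
    AdjoinRoot.liftAlgHom (ratPoly b) (Algebra.ofId ℚ L) θ h
  have hinj : Function.Injective φ := φ.toRingHom.injective
  have hfr : Module.finrank ℚ (AdjoinRoot (ratPoly b)) = k := by
    rw [(AdjoinRoot.powerBasis hb.ne_zero).finrank, AdjoinRoot.powerBasis_dim,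
      natDegree_ratPoly b hb1]
  have : FiniteDimensional ℚ (AdjoinRoot (ratPoly b)) :=
    (AdjoinRoot.powerBasis hb.ne_zero).finite
  have hsurj : Function.Surjective φ := by
    have := LinearMap.injective_iff_surjective_of_finrank_eq_finrank
      (f := φ.toLinearMap) (by rw [hfr, hL])
    exact this.1 hinj
  exact ⟨AlgEquiv.ofBijective φ ⟨hinj, hsurj⟩⟩

private theorem normForm_of_equiv {n : ℕ} {a : Fin (n + 1) → ℤ} {L L' : Type} [Field L]
    [NumberField L] [Field L'] [NumberField L'] (e : L ≃+* L') {m : ℕ} (h : NormForm a L m) :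
    NormForm a L' m := by
  obtain ⟨g, hg, hd, hp⟩ := h
  refine ⟨g.map (e : L →+* L'), hg.map _, ?_, ?_⟩
  · rw [Polynomial.natDegree_map]; exact hd
  · rw [hp]
    congr 1
    refine Fintype.prod_equiv
      { toFun := fun τ => τ.comp (e.symm : L' →+* L)
        invFun := fun τ => τ.comp (e : L →+* L')
        left_inv := fun τ => by ext x; simp
        right_inv := fun τ => by ext x; simp } _ _ ?_
    intro τ
    rw [Polynomial.map_map]
    congr 1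
    ext x
    simp

private theorem normForm_transfer {k n m : ℕ} {a : Fin (n + 1) → ℤ} (b : Fin (k + 1) → ℤ)
    (hb : Irreducible (ratPoly b)) (hb1 : b (Fin.last k) = 1) (L L' : Type) [Field L]
    [NumberField L] [Field L'] [NumberField L'] (hL : Module.finrank ℚ L = k)
    (hL' : Module.finrank ℚ L' = k) (hθ : ∃ θ : L, aeval θ (ratPoly b) = 0)
    (hθ' : ∃ θ : L', aeval θ (ratPoly b) = 0) (h : NormForm a L m) : NormForm a L' m := by
  obtain ⟨θ, hθ⟩ := hθ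
  obtain ⟨θ', hθ'⟩ := hθ'
  obtain ⟨e⟩ := adjoinRoot_equiv b hb hb1 L hL θ hθ
  obtain ⟨e'⟩ := adjoinRoot_equiv b hb hb1 L' hL' θ' hθ'
  exact normForm_of_equiv ((e.symm.trans e').toRingEquiv) h

/-! ### The count for one polynomial -/

open Classical in
private theorem card_one {k m n : ℕ} {ε C8 : ℝ} (hC8 : 0 < C8)
    (h8 : ∀ (L : Type) [Field L] [NumberField L], Module.finrank ℚ L = k → IsPrim L →
      ∀ H : ℕ, 1 ≤ H →
      ({a ∈ (Box n H : Set (Fin (n + 1) → ℤ)) | a (Fin.last n) ≠ 0 ∧ (toPoly a).IsPrimitive ∧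
        NormForm a L m}.ncard : ℝ) ≤ C8 * (H : ℝ) ^ (1 + ε) *
          ((H : ℝ) ^ (1 / (k : ℝ)) + H * |(discr L : ℝ)| ^ (-(1 / (2 * (k : ℝ))))) ^ m)
    (H : ℕ) (hH : 1 ≤ H) (X : ℝ) (hX : 1 ≤ X) (b : Fin (k + 1) → ℤ) :
    (((Box n H).filter (fun a => a (Fin.last n) ≠ 0 ∧ (toPoly a).IsPrimitive ∧
      ∃ (L : Type) (_ : Field L) (_ : NumberField L), Module.finrank ℚ L = k ∧ IsPrim L ∧
        NormForm a L m ∧ X ≤ |(discr L : ℝ)| ∧ Irreducible (ratPoly b) ∧ b (Fin.last k) = 1 ∧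
        ∃ θ : L, aeval θ (ratPoly b) = 0)).card : ℝ) ≤ C8 * (H : ℝ) ^ (1 + ε) *
          ((H : ℝ) ^ (1 / (k : ℝ)) + H * X ^ (-(1 / (2 * (k : ℝ))))) ^ m := by
  set A := (Box n H).filter (fun a => a (Fin.last n) ≠ 0 ∧ (toPoly a).IsPrimitive ∧
      ∃ (L : Type) (_ : Field L) (_ : NumberField L), Module.finrank ℚ L = k ∧ IsPrim L ∧
        NormForm a L m ∧ X ≤ |(discr L : ℝ)| ∧ Irreducible (ratPoly b) ∧ b (Fin.last k) = 1 ∧
        ∃ θ : L, aeval θ (ratPoly b) = 0) with hA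
  have hH0 : (0 : ℝ) < H := by exact_mod_cast hH
  rcases A.eq_empty_or_nonempty with he | ⟨a0, ha0⟩
  · rw [he]
    simp only [Finset.card_empty, Nat.cast_zero]
    positivity
  · rw [hA, Finset.mem_filter] at ha0
    obtain ⟨-, -, -, L0, i1, i2, hL0, hp0, -, hX0, hirr, hb1, hθ0⟩ := ha0
    have h1 := h8 L0 hL0 hp0 H hH
    have h2 : (A.card : ℝ) ≤ ({a ∈ (Box n H : Set (Fin (n + 1) → ℤ)) | a (Fin.last n) ≠ 0 ∧
        (toPoly a).IsPrimitive ∧ NormForm a L0 m}.ncard : ℝ) := by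
      rw [← Set.ncard_coe_finset]
      refine Nat.cast_le.2 (Set.ncard_le_ncard ?_ ?_)
      · intro a ha
        rw [Finset.mem_coe, hA, Finset.mem_filter] at ha
        obtain ⟨hab, hal, hap, L, j1, j2, hL, hp, hnf, -, -, -, hθ⟩ := ha
        exact ⟨hab, hal, hap, normForm_transfer b hirr hb1 L L0 hL hL0 hθ hθ0 hnf⟩
      · exact (Finset.finite_toSet (Box n H)).subset (fun a ha => ha.1)
    refine h2.trans (h1.trans ?_)
    have h3 : |(discr L0 : ℝ)| ^ (-(1 / (2 * (k : ℝ)))) ≤ X ^ (-(1 / (2 * (k : ℝ)))) := by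
      refine Real.rpow_le_rpow_of_nonpos (by linarith) hX0 ?_
      have : (0 : ℝ) ≤ 1 / (2 * (k : ℝ)) := by positivity
      linarith
    gcongr

/-! ### The main count -/

private theorem caseA_aux
    (hG8 : ∀ (k m : ℕ), 2 ≤ k → 1 ≤ m → ∀ (n : ℕ), k * m = n → ∀ (ε : ℝ), 0 < ε →
      ∃ C : ℝ, 0 < C ∧ ∀ (L : Type) [Field L] [NumberField L], Module.finrank ℚ L = k →
      IsPrim L → ∀ H : ℕ, 1 ≤ H →
      ({a ∈ (Box n H : Set (Fin (n + 1) → ℤ)) | a (Fin.last n) ≠ 0 ∧ (toPoly a).IsPrimitive ∧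
        NormForm a L m}.ncard : ℝ) ≤ C * (H : ℝ) ^ (1 + ε) *
          ((H : ℝ) ^ (1 / (k : ℝ)) + H * |(discr L : ℝ)| ^ (-(1 / (2 * (k : ℝ))))) ^ m)
    (k m n : ℕ) (hk : 2 ≤ k) (hm : 1 ≤ m) (hkm : k * m = n) (c : ℝ)
    (t β : ℝ) (ht : 0 ≤ t) (hβ : 0 ≤ β) (h1 : 1 + t * β + m / k < n)
    (h2 : 1 + m + t * (β - m / (2 * k)) < n) (h3 : (1 : ℝ) + m < n)
    (R : ∀ (L : Type) [Field L] [NumberField L], Prop)
    (hcov : ∃ C : ℝ, 0 < C ∧ ∀ X : ℝ, 1 ≤ X →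
      ∃ T : Finset (Fin (k + 1) → ℤ), (T.card : ℝ) ≤ C * X ^ β ∧
      ∀ (L : Type) [Field L] [NumberField L], Module.finrank ℚ L = k → IsPrim L → R L →
        X ≤ |(discr L : ℝ)| → |(discr L : ℝ)| ≤ 2 * X →
        ∃ b ∈ T, Irreducible (ratPoly b) ∧ b (Fin.last k) = 1 ∧
          ∃ θ : L, aeval θ (ratPoly b) = 0) :
    ∃ C : ℝ, 0 < C ∧ ∀ H : ℕ, 1 ≤ H →
    ({a ∈ (Box n H : Set (Fin (n + 1) → ℤ)) | a (Fin.last n) ≠ 0 ∧ (toPoly a).IsPrimitive ∧
      ∃ (L : Type) (_ : Field L) (_ : NumberField L), Module.finrank ℚ L = k ∧ IsPrim L ∧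
        NormForm a L m ∧ R L ∧
        |(discr L : ℝ)| ≤ c * (H : ℝ) ^ t}.ncard : ℝ) ≤ C * (H : ℝ) ^ n := by
  classical
  obtain ⟨CT, hCT, hT⟩ := hcov
  set gap : ℝ := min (min (n - (1 + t * β + m / k)) (n - (1 + m + t * (β - m / (2 * k)))))
    (n - (1 + m)) with hgap
  have hgap0 : 0 < gap := by
    rw [hgap]
    refine lt_min (lt_min ?_ ?_) ?_ <;> linarith
  set ε : ℝ := gap / 2 with hε
  have hε0 : 0 < ε := by rw [hε]; linarith
  have hg1 : 2 * ε ≤ n - (1 + t * β + m / k) := by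
    have : gap ≤ n - (1 + t * β + m / k) := (min_le_left _ _).trans (min_le_left _ _)
    rw [hε]; linarith
  have hg2 : 2 * ε ≤ n - (1 + m + t * (β - m / (2 * k))) := by
    have : gap ≤ n - (1 + m + t * (β - m / (2 * k))) := (min_le_left _ _).trans (min_le_right _ _)
    rw [hε]; linarith
  have hg3 : 2 * ε ≤ n - (1 + m) := by
    have : gap ≤ n - (1 + m) := min_le_right _ _
    rw [hε]; linarith
  obtain ⟨C8, hC8, h8⟩ := hG8 k m hk hm n hkm ε hε0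
  choose! T hTc hTL using hT
  set c' : ℝ := max c 1 with hc'
  have hc'1 : 1 ≤ c' := le_max_right _ _
  have hlog2 : 0 < Real.log 2 := Real.log_pos (by norm_num)
  set γ : ℝ := β - m / (2 * k) with hγ
  set CJ : ℝ := 1 + (Real.log c' + t / ε) / Real.log 2 with hCJ
  have hlogc : 0 ≤ Real.log c' := Real.log_nonneg hc'1
  have hCJ0 : 0 < CJ := by rw [hCJ]; positivity
  set K : ℝ := CT * C8 * 2 ^ (m - 1) with hK
  have hK0 : 0 < K := by rw [hK]; positivity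
  refine ⟨CJ * (K * (c' ^ β + 1 + c' ^ γ)), by positivity, ?_⟩
  intro H hH
  have hH1 : (1 : ℝ) ≤ H := by exact_mod_cast hH
  have hH0 : (0 : ℝ) < H := by linarith
  set Y : ℝ := c' * (H : ℝ) ^ t with hY
  have hHt : (1 : ℝ) ≤ (H : ℝ) ^ t := Real.one_le_rpow hH1 ht
  have hY1 : 1 ≤ Y := by
    rw [hY]
    nlinarith
  set J : ℕ := Nat.log 2 ⌊Y⌋₊ + 1 with hJ
  have hfl : ⌊Y⌋₊ ≠ 0 := by
    have : 1 ≤ ⌊Y⌋₊ := Nat.le_floor (by simpa using hY1)
    omega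
  -- bound for J
  have hJle : (J : ℝ) ≤ CJ * (H : ℝ) ^ ε := by
    have e1 : ((2 : ℝ)) ^ (Nat.log 2 ⌊Y⌋₊) ≤ Y := by
      have : 2 ^ (Nat.log 2 ⌊Y⌋₊) ≤ ⌊Y⌋₊ := Nat.pow_log_le_self 2 hfl
      calc ((2 : ℝ)) ^ (Nat.log 2 ⌊Y⌋₊) ≤ (⌊Y⌋₊ : ℝ) := by exact_mod_cast this
        _ ≤ Y := Nat.floor_le (by linarith)
    have e2 : (Nat.log 2 ⌊Y⌋₊ : ℝ) * Real.log 2 ≤ Real.log Y := by
      rw [← Real.log_pow]
      exact Real.log_le_log (by positivity) e1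
    have e3 : Real.log Y = Real.log c' + t * Real.log H := by
      rw [hY, Real.log_mul (by positivity) (by positivity), Real.log_rpow hH0]
    have e4 : Real.log H ≤ (H : ℝ) ^ ε / ε := Real.log_le_rpow_div (by linarith) hε0
    have e5 : (1 : ℝ) ≤ (H : ℝ) ^ ε := Real.one_le_rpow hH1 hε0.le
    have e6 : (Nat.log 2 ⌊Y⌋₊ : ℝ) ≤ (Real.log c' + t / ε) / Real.log 2 * (H : ℝ) ^ ε := by
      rw [div_mul_eq_mul_div, le_div_iff₀ hlog2]
      calc (Nat.log 2 ⌊Y⌋₊ : ℝ) * Real.log 2 ≤ Real.log c' + t * Real.log H := by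
            rw [← e3]; exact e2
        _ ≤ Real.log c' * (H : ℝ) ^ ε + t * ((H : ℝ) ^ ε / ε) := by
            have := mul_le_mul_of_nonneg_left e5 hlogc
            have := mul_le_mul_of_nonneg_left e4 ht
            linarith
        _ = (Real.log c' + t / ε) * (H : ℝ) ^ ε := by ring
    rw [hJ, hCJ]
    push_cast
    linarith
  -- the covering
  set A : ℕ → (Fin (k + 1) → ℤ) → Finset (Fin (n + 1) → ℤ) := fun j b =>
    (Box n H).filter (fun a => a (Fin.last n) ≠ 0 ∧ (toPoly a).IsPrimitive ∧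
      ∃ (L : Type) (_ : Field L) (_ : NumberField L), Module.finrank ℚ L = k ∧ IsPrim L ∧
        NormForm a L m ∧ (2 : ℝ) ^ j ≤ |(discr L : ℝ)| ∧ Irreducible (ratPoly b) ∧
        b (Fin.last k) = 1 ∧ ∃ θ : L, aeval θ (ratPoly b) = 0) with hA
  have hcover : {a ∈ (Box n H : Set (Fin (n + 1) → ℤ)) | a (Fin.last n) ≠ 0 ∧
      (toPoly a).IsPrimitive ∧
      ∃ (L : Type) (_ : Field L) (_ : NumberField L), Module.finrank ℚ L = k ∧ IsPrim L ∧
        NormForm a L m ∧ R L ∧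
        |(discr L : ℝ)| ≤ c * (H : ℝ) ^ t} ⊆
      (((Finset.range J).biUnion (fun j => (T ((2 : ℝ) ^ j)).biUnion (fun b => A j b)) :
        Finset (Fin (n + 1) → ℤ)) : Set (Fin (n + 1) → ℤ)) := by
    rintro a ⟨hab, hal, hap, L, i1, i2, hL, hp, hnf, hR, hd⟩
    have hd0 : (discr L).natAbs ≠ 0 := Int.natAbs_ne_zero.2 (NumberField.discr_ne_zero L)
    have hdabs : |(discr L : ℝ)| = ((discr L).natAbs : ℝ) := by
      rw [Nat.cast_natAbs, Int.cast_abs]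
    have hlow : (2 : ℝ) ^ (Nat.log 2 (discr L).natAbs) ≤ |(discr L : ℝ)| := by
      rw [hdabs]
      exact_mod_cast Nat.pow_log_le_self 2 hd0
    have hup : |(discr L : ℝ)| ≤ 2 * (2 : ℝ) ^ (Nat.log 2 (discr L).natAbs) := by
      rw [hdabs]
      have : (discr L).natAbs < 2 ^ (Nat.log 2 (discr L).natAbs).succ :=
        Nat.lt_pow_succ_log_self (by norm_num) _
      have h' : ((discr L).natAbs : ℝ) < 2 ^ (Nat.log 2 (discr L).natAbs + 1) := by
        exact_mod_cast this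
      rw [pow_succ] at h'
      linarith
    have hX1 : (1 : ℝ) ≤ (2 : ℝ) ^ (Nat.log 2 (discr L).natAbs) := one_le_pow₀ (by norm_num)
    obtain ⟨b, hbT, hirr, hb1, hθ⟩ := hTL _ hX1 L hL hp hR hlow hup
    rw [Finset.mem_coe, Finset.mem_biUnion]
    refine ⟨Nat.log 2 (discr L).natAbs, ?_, ?_⟩
    · rw [Finset.mem_range, hJ, Nat.lt_succ_iff]
      refine Nat.log_mono_right (Nat.le_floor ?_)
      rw [← hdabs]
      refine hd.trans ?_
      rw [hY]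
      have := le_max_left c 1
      gcongr
    · rw [Finset.mem_biUnion]
      refine ⟨b, hbT, ?_⟩
      rw [hA, Finset.mem_filter]
      exact ⟨hab, hal, hap, L, i1, i2, hL, hp, hnf, hlow, hirr, hb1, hθ⟩
  -- bound for a single j
  have hterm : ∀ j ∈ Finset.range J, (((T ((2 : ℝ) ^ j)).biUnion (fun b => A j b)).card : ℝ) ≤
      K * (c' ^ β + 1 + c' ^ γ) * (H : ℝ) ^ ((n : ℝ) - ε) := by
    intro j hj
    rw [Finset.mem_range, hJ, Nat.lt_succ_iff] at hj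
    set X : ℝ := (2 : ℝ) ^ j with hX
    have hX1 : 1 ≤ X := one_le_pow₀ (by norm_num)
    have hX0 : 0 < X := by linarith
    have hXY : X ≤ Y := by
      have e0 : 2 ^ j ≤ ⌊Y⌋₊ := Nat.pow_le_of_le_log hfl hj
      calc X ≤ (⌊Y⌋₊ : ℝ) := by rw [hX]; exact_mod_cast e0
        _ ≤ Y := Nat.floor_le (by linarith)
    have hone : ∀ b, ((A j b).card : ℝ) ≤ C8 * (H : ℝ) ^ (1 + ε) *
          ((H : ℝ) ^ (1 / (k : ℝ)) + H * X ^ (-(1 / (2 * (k : ℝ))))) ^ m := fun b =>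
      card_one hC8 h8 H hH X hX1 b
    have hk0 : (0 : ℝ) < k := by
      have : 0 < k := by omega
      exact_mod_cast this
    have e1 : ((((H : ℝ) ^ (1 / (k : ℝ)) + H * X ^ (-(1 / (2 * (k : ℝ))))) ^ m : ℝ)) ≤
        2 ^ (m - 1) * ((H : ℝ) ^ ((m : ℝ) / k) + (H : ℝ) ^ (m : ℝ) * X ^ (-((m : ℝ) / (2 * k)))) := by
      refine (add_pow_le (by positivity) (by positivity) m).trans_eq ?_
      congr 2
      · rw [← Real.rpow_natCast, ← Real.rpow_mul hH0.le]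
        congr 1
        ring
      · rw [mul_pow, ← Real.rpow_natCast (X ^ (-(1 / (2 * (k : ℝ))))), ← Real.rpow_mul hX0.le,
          ← Real.rpow_natCast (H : ℝ)]
        congr 2
        ring
    have e2 : X ^ β ≤ c' ^ β * (H : ℝ) ^ (t * β) := by
      refine (Real.rpow_le_rpow hX0.le hXY hβ).trans_eq ?_
      rw [hY, Real.mul_rpow (by positivity) (by positivity), ← Real.rpow_mul hH0.le]
    have e3 : X ^ γ ≤ 1 + c' ^ γ * (H : ℝ) ^ (t * γ) := by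
      rcases le_or_gt 0 γ with hγ0 | hγ0
      · have : X ^ γ ≤ c' ^ γ * (H : ℝ) ^ (t * γ) := by
          refine (Real.rpow_le_rpow hX0.le hXY hγ0).trans_eq ?_
          rw [hY, Real.mul_rpow (by positivity) (by positivity), ← Real.rpow_mul hH0.le]
        linarith
      · have : X ^ γ ≤ 1 := Real.rpow_le_one_of_one_le_of_nonpos hX1 hγ0.le
        have : 0 ≤ c' ^ γ * (H : ℝ) ^ (t * γ) := by positivity
        linarith
    have e4 : X ^ β * X ^ (-((m : ℝ) / (2 * k))) = X ^ γ := by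
      rw [← Real.rpow_add hX0, hγ]
      congr 1
    have hcomb : ∀ s : ℝ, 1 + 2 * ε + s ≤ n →
        (H : ℝ) ^ (1 + ε) * (H : ℝ) ^ s ≤ (H : ℝ) ^ ((n : ℝ) - ε) := by
      intro s hs
      rw [← Real.rpow_add hH0]
      exact Real.rpow_le_rpow_of_exponent_le hH1 (by linarith)
    have f1 : (H : ℝ) ^ (1 + ε) * ((H : ℝ) ^ (t * β) * (H : ℝ) ^ ((m : ℝ) / k)) ≤
        (H : ℝ) ^ ((n : ℝ) - ε) := by
      rw [← Real.rpow_add hH0 (t * β)]
      exact hcomb (t * β + m / k) (by linarith)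
    have f2 : (H : ℝ) ^ (1 + ε) * ((H : ℝ) ^ (m : ℝ) * (H : ℝ) ^ (t * γ)) ≤
        (H : ℝ) ^ ((n : ℝ) - ε) := by
      rw [← Real.rpow_add hH0 (m : ℝ)]
      exact hcomb (m + t * γ) (by rw [hγ]; linarith)
    have f3 := hcomb (m : ℝ) (by linarith)
    calc (((T X).biUnion (fun b => A j b)).card : ℝ)
        ≤ ∑ b ∈ T X, ((A j b).card : ℝ) := by exact_mod_cast Finset.card_biUnion_le
      _ ≤ ∑ b ∈ T X, C8 * (H : ℝ) ^ (1 + ε) *
          ((H : ℝ) ^ (1 / (k : ℝ)) + H * X ^ (-(1 / (2 * (k : ℝ))))) ^ m :=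
          Finset.sum_le_sum (fun b _ => hone b)
      _ = ((T X).card : ℝ) * (C8 * (H : ℝ) ^ (1 + ε) *
          ((H : ℝ) ^ (1 / (k : ℝ)) + H * X ^ (-(1 / (2 * (k : ℝ))))) ^ m) := by
          rw [Finset.sum_const, nsmul_eq_mul]
      _ ≤ (CT * X ^ β) * (C8 * (H : ℝ) ^ (1 + ε) * (2 ^ (m - 1) *
          ((H : ℝ) ^ ((m : ℝ) / k) + (H : ℝ) ^ (m : ℝ) * X ^ (-((m : ℝ) / (2 * k)))))) := by
          have := hTc X hX1
          gcongr
      _ = K * ((H : ℝ) ^ (1 + ε) * (X ^ β * (H : ℝ) ^ ((m : ℝ) / k))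
          + (H : ℝ) ^ (1 + ε) * (H : ℝ) ^ (m : ℝ) * X ^ γ) := by
          rw [← e4, hK]
          ring
      _ ≤ K * ((H : ℝ) ^ (1 + ε) * ((c' ^ β * (H : ℝ) ^ (t * β)) * (H : ℝ) ^ ((m : ℝ) / k))
          + (H : ℝ) ^ (1 + ε) * (H : ℝ) ^ (m : ℝ) * (1 + c' ^ γ * (H : ℝ) ^ (t * γ))) := by
          gcongr
      _ = K * (c' ^ β * ((H : ℝ) ^ (1 + ε) * ((H : ℝ) ^ (t * β) * (H : ℝ) ^ ((m : ℝ) / k)))
          + (H : ℝ) ^ (1 + ε) * (H : ℝ) ^ (m : ℝ)
          + c' ^ γ * ((H : ℝ) ^ (1 + ε) * ((H : ℝ) ^ (m : ℝ) * (H : ℝ) ^ (t * γ)))) := by ring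
      _ ≤ K * (c' ^ β * (H : ℝ) ^ ((n : ℝ) - ε) + (H : ℝ) ^ ((n : ℝ) - ε)
          + c' ^ γ * (H : ℝ) ^ ((n : ℝ) - ε)) := by
          gcongr
      _ = K * (c' ^ β + 1 + c' ^ γ) * (H : ℝ) ^ ((n : ℝ) - ε) := by ring
  -- the final sum
  have hfin : ({a ∈ (Box n H : Set (Fin (n + 1) → ℤ)) | a (Fin.last n) ≠ 0 ∧
      (toPoly a).IsPrimitive ∧
      ∃ (L : Type) (_ : Field L) (_ : NumberField L), Module.finrank ℚ L = k ∧ IsPrim L ∧
        NormForm a L m ∧ R L ∧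
        |(discr L : ℝ)| ≤ c * (H : ℝ) ^ t}.ncard : ℝ) ≤
      (((Finset.range J).biUnion (fun j => (T ((2 : ℝ) ^ j)).biUnion (fun b => A j b))).card : ℝ) := by
    rw [← Set.ncard_coe_finset]
    exact Nat.cast_le.2 (Set.ncard_le_ncard hcover (Finset.finite_toSet _))
  calc _ ≤ _ := hfin
    _ ≤ ∑ j ∈ Finset.range J, (((T ((2 : ℝ) ^ j)).biUnion (fun b => A j b)).card : ℝ) := by
        exact_mod_cast Finset.card_biUnion_le
    _ ≤ ∑ j ∈ Finset.range J, K * (c' ^ β + 1 + c' ^ γ) * (H : ℝ) ^ ((n : ℝ) - ε) :=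
        Finset.sum_le_sum hterm
    _ = (J : ℝ) * (K * (c' ^ β + 1 + c' ^ γ) * (H : ℝ) ^ ((n : ℝ) - ε)) := by
        rw [Finset.sum_const, Finset.card_range, nsmul_eq_mul]
    _ ≤ (CJ * (H : ℝ) ^ ε) * (K * (c' ^ β + 1 + c' ^ γ) * (H : ℝ) ^ ((n : ℝ) - ε)) := by
        gcongr
    _ = CJ * (K * (c' ^ β + 1 + c' ^ γ)) * ((H : ℝ) ^ ε * (H : ℝ) ^ ((n : ℝ) - ε)) := by ring
    _ = CJ * (K * (c' ^ β + 1 + c' ^ γ)) * (H : ℝ) ^ n := by
        rw [← Real.rpow_add hH0, ← Real.rpow_natCast (H : ℝ) n]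
        congr 2
        ring

/-- VW-F4: small discriminants; `hG8`, `hF1`, `hF2`, `hF3` are the modules G8 (`card_normForm_le`),
F1 (`field_cover`), F2 (`field_cover4`) and F3 (`field_cover5`). -/
theorem caseA_of
    (hG8 : ∀ (k m : ℕ), 2 ≤ k → 1 ≤ m → ∀ (n : ℕ), k * m = n → ∀ (ε : ℝ), 0 < ε →
      ∃ C : ℝ, 0 < C ∧ ∀ (L : Type) [Field L] [NumberField L], Module.finrank ℚ L = k →
      IsPrim L → ∀ H : ℕ, 1 ≤ H →
      ({a ∈ (Box n H : Set (Fin (n + 1) → ℤ)) | a (Fin.last n) ≠ 0 ∧ (toPoly a).IsPrimitive ∧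
        NormForm a L m}.ncard : ℝ) ≤ C * (H : ℝ) ^ (1 + ε) *
          ((H : ℝ) ^ (1 / (k : ℝ)) + H * |(discr L : ℝ)| ^ (-(1 / (2 * (k : ℝ))))) ^ m)
    (hF1 : ∀ (k : ℕ), 2 ≤ k → ∃ C : ℝ, 0 < C ∧ ∀ X : ℝ, 1 ≤ X →
      ∃ T : Finset (Fin (k + 1) → ℤ), (T.card : ℝ) ≤ C * X ^ (((k : ℝ) + 2) / 4) ∧
      ∀ (L : Type) [Field L] [NumberField L], Module.finrank ℚ L = k → IsPrim L →
        X ≤ |(discr L : ℝ)| → |(discr L : ℝ)| ≤ 2 * X →
        ∃ b ∈ T, Irreducible (ratPoly b) ∧ b (Fin.last k) = 1 ∧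
          ∃ θ : L, aeval θ (ratPoly b) = 0)
    (hF2 : ∀ (ε : ℝ), 0 < ε → ∃ C : ℝ, 0 < C ∧ ∀ X : ℝ, 1 ≤ X →
      ∃ T : Finset (Fin (4 + 1) → ℤ), (T.card : ℝ) ≤ C * X ^ (1 + ε) ∧
      ∀ (L : Type) [Field L] [NumberField L], Module.finrank ℚ L = 4 → IsPrim L →
        (∀ p : ℕ, p.Prime → vD L p ≠ 1) →
        X ≤ |(discr L : ℝ)| → |(discr L : ℝ)| ≤ 2 * X →
        ∃ b ∈ T, Irreducible (ratPoly b) ∧ b (Fin.last 4) = 1 ∧
          ∃ θ : L, aeval θ (ratPoly b) = 0)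
    (hF3 : ∀ (ε : ℝ), 0 < ε → ∃ C : ℝ, 0 < C ∧ ∀ X : ℝ, 1 ≤ X →
      ∃ T : Finset (Fin (5 + 1) → ℤ), (T.card : ℝ) ≤ C * X ^ (3 / 2 + ε : ℝ) ∧
      ∀ (L : Type) [Field L] [NumberField L], Module.finrank ℚ L = 5 → IsPrim L →
        (∀ p : ℕ, p.Prime → vD L p ≠ 1) →
        X ≤ |(discr L : ℝ)| → |(discr L : ℝ)| ≤ 2 * X →
        ∃ b ∈ T, Irreducible (ratPoly b) ∧ b (Fin.last 5) = 1 ∧
          ∃ θ : L, aeval θ (ratPoly b) = 0)
    (k m n : ℕ) (hk : 2 ≤ k) (hm : 1 ≤ m) (hkm : k * m = n) (hn : 4 ≤ n) (c : ℝ)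
    (_hc : 0 < c) : ∃ C : ℝ, 0 < C ∧ ∀ H : ℕ, 1 ≤ H →
    ({a ∈ (Box n H : Set (Fin (n + 1) → ℤ)) | a (Fin.last n) ≠ 0 ∧ (toPoly a).IsPrimitive ∧
      ∃ (L : Type) (_ : Field L) (_ : NumberField L), Module.finrank ℚ L = k ∧ IsPrim L ∧
        NormForm a L m ∧ (m = 1 → ∀ p : ℕ, p.Prime → vD L p ≠ 1) ∧
        |(discr L : ℝ)| ≤ c * (H : ℝ) ^ thr m}.ncard : ℝ) ≤ C * (H : ℝ) ^ n := by
  have hk0 : (0 : ℝ) < k := by
    have : 0 < k := by omega
    exact_mod_cast this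
  have hk2 : (2 : ℝ) ≤ k := by exact_mod_cast hk
  have hnr : (n : ℝ) = k * m := by rw [← hkm]; push_cast; ring
  have hcovgen : ∃ C : ℝ, 0 < C ∧ ∀ X : ℝ, 1 ≤ X →
      ∃ T : Finset (Fin (k + 1) → ℤ), (T.card : ℝ) ≤ C * X ^ (((k : ℝ) + 2) / 4) ∧
      ∀ (L : Type) [Field L] [NumberField L], Module.finrank ℚ L = k → IsPrim L →
        (m = 1 → ∀ p : ℕ, p.Prime → vD L p ≠ 1) →
        X ≤ |(discr L : ℝ)| → |(discr L : ℝ)| ≤ 2 * X →
        ∃ b ∈ T, Irreducible (ratPoly b) ∧ b (Fin.last k) = 1 ∧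
          ∃ θ : L, aeval θ (ratPoly b) = 0 := by
    obtain ⟨C, hC, h⟩ := hF1 k hk
    refine ⟨C, hC, fun X hX => ?_⟩
    obtain ⟨T, hT, hTL⟩ := h X hX
    exact ⟨T, hT, fun L _ _ hL hp _ h1 h2 => hTL L hL hp h1 h2⟩
  rcases Nat.lt_or_ge m 2 with hm1 | hm2
  · -- m = 1
    have hm1' : m = 1 := by omega
    subst hm1'
    have hkn : k = n := by omega
    have hthr : thr 1 = 2.02 := by unfold thr; simp
    rw [hthr]
    rcases Nat.lt_or_ge k 6 with hk6 | hk6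
    · have hk45 : k = 4 ∨ k = 5 := by omega
      rcases hk45 with rfl | rfl
      · -- k = 4
        obtain ⟨C, hC, h⟩ := hF2 (1 / 100) (by norm_num)
        refine caseA_aux hG8 4 1 n hk hm hkm c 2.02 (1 + 1 / 100) (by norm_num) (by norm_num) ?_ ?_ ?_
          (fun L _ _ => 1 = 1 → ∀ p : ℕ, p.Prime → vD L p ≠ 1) ⟨C, hC, fun X hX => ?_⟩
        · rw [hnr]; norm_num
        · rw [hnr]; norm_num
        · rw [hnr]; norm_num
        · obtain ⟨T, hT, hTL⟩ := h X hX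
          exact ⟨T, hT, fun L _ _ hL hp hR h1 h2 => hTL L hL hp (hR rfl) h1 h2⟩
      · -- k = 5
        obtain ⟨C, hC, h⟩ := hF3 (1 / 100) (by norm_num)
        refine caseA_aux hG8 5 1 n hk hm hkm c 2.02 (3 / 2 + 1 / 100) (by norm_num) (by norm_num)
          ?_ ?_ ?_ (fun L _ _ => 1 = 1 → ∀ p : ℕ, p.Prime → vD L p ≠ 1) ⟨C, hC, fun X hX => ?_⟩
        · rw [hnr]; norm_num
        · rw [hnr]; norm_num
        · rw [hnr]; norm_num
        · obtain ⟨T, hT, hTL⟩ := h X hX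
          exact ⟨T, hT, fun L _ _ hL hp hR h1 h2 => hTL L hL hp (hR rfl) h1 h2⟩
    · -- k ≥ 6
      have hk6' : (6 : ℝ) ≤ k := by exact_mod_cast hk6
      refine caseA_aux hG8 k 1 n hk hm hkm c 2.02 (((k : ℝ) + 2) / 4) (by norm_num) (by positivity)
        ?_ ?_ ?_ (fun L _ _ => 1 = 1 → ∀ p : ℕ, p.Prime → vD L p ≠ 1) hcovgen
      · rw [hnr]
        have : (1 : ℝ) / k ≤ 1 / 6 := by
          apply one_div_le_one_div_of_le <;> linarith
        push_cast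
        nlinarith
      · rw [hnr]
        have : (0 : ℝ) < 1 / (2 * k) := by positivity
        have e1 : (k : ℝ) * (1 / (2 * k)) = 1 / 2 := by field_simp
        push_cast
        nlinarith
      · rw [hnr]; push_cast; linarith
  · -- m ≥ 2
    have hm2' : (2 : ℝ) ≤ m := by exact_mod_cast hm2
    have hthr : thr m = 1.01 / ((m : ℝ) - 1) := by
      unfold thr
      rw [if_neg (by omega)]
    have hm1r : (0 : ℝ) < (m : ℝ) - 1 := by linarith
    have ht0 : 0 < thr m := by rw [hthr]; positivity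
    have hs1 : thr m ≤ 1.01 := by
      rw [hthr, div_le_iff₀ hm1r]
      linarith
    have key : (k = 2 ∧ m = 2) ∨ 1 + (m : ℝ) + thr m * (((k : ℝ) + 2) / 4) < k * m := by
      rcases Nat.lt_or_ge k 3 with hk3 | hk3
      · have hk2' : k = 2 := by omega
        rcases Nat.lt_or_ge m 3 with hm3 | hm3
        · left; omega
        · right
          have hm3' : (3 : ℝ) ≤ m := by exact_mod_cast hm3
          rw [hk2']
          push_cast
          linarith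
      · right
        have hk3' : (3 : ℝ) ≤ k := by exact_mod_cast hk3
        have e1 : thr m * (((k : ℝ) + 2) / 4) ≤ 1.01 * (((k : ℝ) + 2) / 4) := by gcongr
        nlinarith
    have hmk : (m : ℝ) / k ≤ m := by
      rw [div_le_iff₀ hk0]
      nlinarith
    have hmk0 : (0 : ℝ) ≤ (m : ℝ) / (2 * k) := by positivity
    refine caseA_aux hG8 k m n hk hm hkm c (thr m) (((k : ℝ) + 2) / 4) ht0.le (by positivity)
        ?_ ?_ ?_ (fun L _ _ => m = 1 → ∀ p : ℕ, p.Prime → vD L p ≠ 1) hcovgen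
    · rw [hnr]
      rcases key with ⟨rfl, rfl⟩ | key
      · rw [hthr]; norm_num
      · linarith
    · rw [hnr]
      rcases key with ⟨rfl, rfl⟩ | key
      · rw [hthr]; norm_num
      · have : 0 ≤ thr m * ((m : ℝ) / (2 * k)) := by positivity
        rw [mul_sub]
        linarith
    · rw [hnr]; nlinarith

end Pool.Agent.Helper12.VW
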